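import Pool.Agent.Y202.ARW.Equi
import Pool.Agent.H380R3.ARW.Big

/-!
# Riesz capacities on `ℤ ^ d`
-/

set_option autoImplicit false
set_option linter.unusedSectionVars false
set_option maxHeartbeats 400000

open scoped ENNReal
open Finset MeasureTheory ProbabilityTheory

namespace Pool.Agent.Y202.ARW

open Pool.Agent.H380R3.ARW

variable {d : ℕ}

/-- The Riesz kernel of index `s`: `‖x‖ ^ (s - d)` for `x ≠ 0`, and `1` at the origin. -/
noncomputable def riesz (d : ℕ) (s : ℝ) (x : Fin d → ℤ) : ℝ≥0∞ :=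
  if x = 0 then 1 else ENNReal.ofReal (eucl x ^ (-(d : ℝ) + s))

/-- The Riesz capacity of index `s` of a set `F`: the largest mass of a measure carried by `F`
whose Riesz potential is at most one on `F`. -/
noncomputable def cap (s : ℝ) (F : Set (Fin d → ℤ)) : ℝ≥0∞ :=
  ⨆ (f : (Fin d → ℤ) → ℝ≥0∞) (_ : (∀ x, x ∉ F → f x = 0) ∧
    ∀ x ∈ F, ∑' y, riesz d s (y - x) * f y ≤ 1), ∑' y, f y

/-- `e` is an equilibrium function of the finite set `F` for the kernel `kap σ` -/
structure IsEq (σ : ℝ≥0∞) (F : Finset (Fin d → ℤ)) (e : (Fin d → ℤ) → ℝ≥0∞) : Prop where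
  supp : ∀ y, y ∉ F → e y = 0
  fin : ∀ y, e y ≠ ∞
  one_le : ∀ z ∈ F, 1 ≤ op (kap σ) e z
  le_one : ∀ z, e z ≠ 0 → op (kap σ) e z ≤ 1

lemma kap_real {σ : ℝ≥0∞} (hσ : σ < DD d) (x : Fin d → ℤ) :
    kap σ x = ENNReal.ofReal ((kap σ x).toReal) := by
  rw [ENNReal.ofReal_toReal]
  unfold kap
  exact ENNReal.pow_ne_top ((div_DD_lt_one hσ).trans_le le_top).ne

lemma exists_isEq {σ : ℝ≥0∞} (hσ : σ < DD d) (F : Finset (Fin d → ℤ)) :
    ∃ e, IsEq σ F e := by
  classical
  obtain ⟨f, hf0, hf1, hf2⟩ := exists_equi (ι := F)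
    (fun i j => (kap σ (j.1 - i.1)).toReal)
    (fun i j => by
      have : kap σ (j.1 - i.1) = kap σ (i.1 - j.1) := by
        rw [← kap_neg, neg_sub]
      rw [this])
    (fun i j => ENNReal.toReal_nonneg)
    (fun i => by
      rw [sub_self]
      unfold kap
      rw [sz_zero, pow_zero, ENNReal.toReal_one])
  set e : (Fin d → ℤ) → ℝ≥0∞ := fun y => if h : y ∈ F then ENNReal.ofReal (f ⟨y, h⟩) else 0
    with he
  have hop : ∀ z, (hz : z ∈ F) → op (kap σ) e z
      = ENNReal.ofReal (∑ j : F, (kap σ (j.1 - z)).toReal * f j) := by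
    intro z hz
    rw [op_eq', tsum_eq_sum (s := F)]
    · rw [ENNReal.ofReal_sum_of_nonneg
        (fun j _ => mul_nonneg ENNReal.toReal_nonneg (hf0 j)), ← Finset.sum_coe_sort F]
      refine Finset.sum_congr rfl fun j _ => ?_
      rw [ENNReal.ofReal_mul ENNReal.toReal_nonneg, ← kap_real hσ]
      congr 1
      simp [he]
    · intro y hy
      simp [he, hy]
  refine ⟨e, fun y hy => by simp [he, hy], fun y => ?_, fun z hz => ?_, fun z hz => ?_⟩
  · by_cases h : y ∈ F
    · simp [he, h]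
    · simp [he, h]
  · rw [hop z hz, ← ENNReal.ofReal_one]
    exact ENNReal.ofReal_le_ofReal (hf1 ⟨z, hz⟩)
  · have hzF : z ∈ F := by
      by_contra h
      exact hz (by simp [he, h])
    have hfz : 0 < f ⟨z, hzF⟩ := by
      have h2 : ENNReal.ofReal (f ⟨z, hzF⟩) ≠ 0 := by simpa [he, hzF] using hz
      by_contra h3
      exact h2 (ENNReal.ofReal_eq_zero.2 (not_lt.1 h3))
    rw [hop z hzF, ← ENNReal.ofReal_one]
    exact ENNReal.ofReal_le_ofReal (hf2 ⟨z, hzF⟩ hfz)

/-- maximum principle -/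
lemma IsEq.le {σ : ℝ≥0∞} (hσ0 : σ ≠ 0) (hσ : σ < DD d) {F : Finset (Fin d → ℤ)}
    {e : (Fin d → ℤ) → ℝ≥0∞} (h : IsEq σ F e) (z : Fin d → ℤ) :
    op (kap σ) e z ≤ (σ / DD d)⁻¹ := by
  classical
  set q : ℝ≥0∞ := σ / DD d with hq
  have hq0 : q ≠ 0 := (ENNReal.div_pos hσ0 DD_ne_top).ne'
  have hq1 : q < 1 := div_DD_lt_one hσ
  have hqt : q ≠ ∞ := (hq1.trans_le le_top).ne
  rcases (F.filter fun y => e y ≠ 0).eq_empty_or_nonempty with h0 | hne
  · have : ∀ y, e y = 0 := by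
      intro y
      by_contra hy
      have hyF : y ∈ F := by
        by_contra hc
        exact hy (h.supp y hc)
      have : y ∈ F.filter fun y => e y ≠ 0 := Finset.mem_filter.2 ⟨hyF, hy⟩
      rw [h0] at this
      simp at this
    rw [op_eq']
    simp [this]
  · obtain ⟨w, hw, hmin⟩ := Finset.exists_min_image _ (fun y => sz (y - z)) hne
    obtain ⟨hwF, hw0⟩ := Finset.mem_filter.1 hw
    rw [op_eq']
    calc ∑' y, kap σ (y - z) * e y ≤ ∑' y, q⁻¹ * (kap σ (y - w) * e y) := by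
          refine ENNReal.tsum_le_tsum fun y => ?_
          by_cases hy : e y = 0
          · simp [hy]
          · have hyF : y ∈ F := by
              by_contra hc
              exact hy (h.supp y hc)
            have h1 : sz (w - z) ≤ sz (y - z) := hmin y (Finset.mem_filter.2 ⟨hyF, hy⟩)
            have h2 : sz (y - w) ≤ sz (y - z) + 1 := by
              have h3 := sz_add_le (y - z) (z - w)
              rw [sub_add_sub_cancel, ← neg_sub w z, sz_neg, max_eq_left h1] at h3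
              exact h3
            rw [← mul_assoc]
            gcongr
            unfold kap
            rw [← hq]
            calc q ^ sz (y - z) = q⁻¹ * q ^ (sz (y - z) + 1) := by
                  rw [pow_succ', ← mul_assoc, ENNReal.inv_mul_cancel hq0 hqt, one_mul]
              _ ≤ q⁻¹ * q ^ sz (y - w) :=
                  mul_le_mul' le_rfl (pow_le_pow_right_of_le_one' hq1.le h2)
      _ = q⁻¹ * op (kap σ) e w := by rw [ENNReal.tsum_mul_left, op_eq']
      _ ≤ q⁻¹ * 1 := by gcongr; exact h.le_one w hw0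
      _ = q⁻¹ := mul_one _

/-- the Riesz kernel is comparable to the kernel `kap` -/
lemma riesz_bounds (hd : d ≠ 0) {s : ℝ} (hs : s < d) :
    ∃ c C : ℝ≥0∞, c ≠ 0 ∧ c ≠ ∞ ∧ C ≠ 0 ∧ C ≠ ∞ ∧
      ∀ x, c * kap (ENNReal.ofReal (2 ^ s)) x ≤ riesz d s x ∧
        riesz d s x ≤ C * kap (ENNReal.ofReal (2 ^ s)) x := by
  obtain ⟨c, C, hc, hC, h⟩ := green_bounds hd hs (riesz d s) (by simp [riesz]) (by simp [riesz])
    ⟨1, 1, one_pos, le_rfl, fun x hx => by simp [riesz, hx]⟩
  have h0 := h 0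
  simp only [riesz, if_true, kap, sz_zero, pow_zero, mul_one] at h0
  exact ⟨c, C, hc, (h0.1.trans_lt ENNReal.one_lt_top).ne, (lt_of_lt_of_le zero_lt_one h0.2).ne',
    hC, h⟩

/-- capacity and mass of the equilibrium function -/
lemma cap_bounds (hd : d ≠ 0) {s : ℝ} (hs : s < d) :
    ∃ c C : ℝ≥0∞, c ≠ ∞ ∧ C ≠ ∞ ∧ ∀ (F : Finset (Fin d → ℤ)) (e : (Fin d → ℤ) → ℝ≥0∞),
      IsEq (ENNReal.ofReal (2 ^ s)) F e →
        cap s (F : Set (Fin d → ℤ)) ≤ c * ∑' y, e y ∧
        ∑' y, e y ≤ C * cap s (F : Set (Fin d → ℤ)) := by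
  classical
  obtain ⟨c, C, hc0, hct, hC0, hCt, h⟩ := riesz_bounds hd hs
  set σ : ℝ≥0∞ := ENNReal.ofReal (2 ^ s) with hσd
  have hσ0 : σ ≠ 0 := (ENNReal.ofReal_pos.2 (by positivity)).ne'
  have hσ : σ < DD d := ofReal_lt_DD hs
  set q : ℝ≥0∞ := σ / DD d with hq
  have hq0 : q ≠ 0 := (ENNReal.div_pos hσ0 DD_ne_top).ne'
  have hq1 : q < 1 := div_DD_lt_one hσ
  have hqt : q ≠ ∞ := (hq1.trans_le le_top).ne
  refine ⟨c⁻¹, C * q⁻¹, ENNReal.inv_ne_top.2 hc0,
    ENNReal.mul_ne_top hCt (ENNReal.inv_ne_top.2 hq0), fun F e he => ⟨?_, ?_⟩⟩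
  · unfold cap
    refine iSup₂_le fun f hf => ?_
    obtain ⟨hf1, hf2⟩ := hf
    calc ∑' y, f y ≤ ∑' y, f y * op (kap σ) e y := by
          refine ENNReal.tsum_le_tsum fun y => ?_
          by_cases hy : y ∈ F
          · exact le_mul_of_one_le_right' (he.one_le y hy)
          · rw [hf1 y (by simpa using hy), zero_mul]
      _ = ∑' y, ∑' z, f y * (kap σ (z - y) * e z) := by
          refine tsum_congr fun y => ?_
          rw [op_eq', ENNReal.tsum_mul_left]
      _ = ∑' z, ∑' y, f y * (kap σ (z - y) * e z) := ENNReal.tsum_comm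
      _ ≤ ∑' z, c⁻¹ * (e z * ∑' y, riesz d s (y - z) * f y) := by
          refine ENNReal.tsum_le_tsum fun z => ?_
          rw [← ENNReal.tsum_mul_left, ← ENNReal.tsum_mul_left]
          refine ENNReal.tsum_le_tsum fun y => ?_
          have h1 : kap σ (z - y) ≤ c⁻¹ * riesz d s (y - z) := by
            rw [← kap_neg, neg_sub]
            calc kap σ (y - z) = c⁻¹ * (c * kap σ (y - z)) := by
                  rw [← mul_assoc, ENNReal.inv_mul_cancel hc0 hct, one_mul]
              _ ≤ c⁻¹ * riesz d s (y - z) := by gcongr; exact (h _).1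
          calc f y * (kap σ (z - y) * e z) ≤ f y * ((c⁻¹ * riesz d s (y - z)) * e z) := by gcongr
            _ = _ := by ring
      _ ≤ ∑' z, c⁻¹ * e z := by
          refine ENNReal.tsum_le_tsum fun z => ?_
          by_cases hz : z ∈ F
          · gcongr
            calc e z * ∑' y, riesz d s (y - z) * f y ≤ e z * 1 := by
                  gcongr
                  exact hf2 z (by simpa using hz)
              _ = e z := mul_one _
          · rw [he.supp z hz, zero_mul]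
      _ = c⁻¹ * ∑' y, e y := ENNReal.tsum_mul_left
  · set D : ℝ≥0∞ := C * q⁻¹ with hD
    have hD0 : D ≠ 0 := mul_ne_zero hC0 (ENNReal.inv_ne_zero.2 hqt)
    have hDt : D ≠ ∞ := ENNReal.mul_ne_top hCt (ENNReal.inv_ne_top.2 hq0)
    have hfeas : (∀ x, x ∉ (F : Set (Fin d → ℤ)) → D⁻¹ * e x = 0) ∧
        ∀ x ∈ (F : Set (Fin d → ℤ)), ∑' y, riesz d s (y - x) * (D⁻¹ * e y) ≤ 1 := by
      refine ⟨fun x hx => by rw [he.supp x (by simpa using hx), mul_zero], fun x _ => ?_⟩
      calc ∑' y, riesz d s (y - x) * (D⁻¹ * e y)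
          ≤ ∑' y, D⁻¹ * C * (kap σ (y - x) * e y) := by
            refine ENNReal.tsum_le_tsum fun y => ?_
            calc riesz d s (y - x) * (D⁻¹ * e y) ≤ (C * kap σ (y - x)) * (D⁻¹ * e y) := by
                  gcongr; exact (h _).2
              _ = _ := by ring
        _ = D⁻¹ * C * op (kap σ) e x := by rw [ENNReal.tsum_mul_left, op_eq']
        _ ≤ D⁻¹ * C * q⁻¹ := by gcongr; exact he.le hσ0 hσ x
        _ = D⁻¹ * D := by rw [hD]; ring
        _ = 1 := ENNReal.inv_mul_cancel hD0 hDt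
    have h2 : ∑' y, D⁻¹ * e y ≤ cap s (F : Set (Fin d → ℤ)) := by
      unfold cap
      exact le_iSup₂ (f := fun (f : (Fin d → ℤ) → ℝ≥0∞) (_ : (∀ x, x ∉ (F : Set (Fin d → ℤ)) →
        f x = 0) ∧ ∀ x ∈ (F : Set (Fin d → ℤ)), ∑' y, riesz d s (y - x) * f y ≤ 1) => ∑' y, f y)
        (fun y => D⁻¹ * e y) hfeas
    rw [ENNReal.tsum_mul_left] at h2
    calc ∑' y, e y = D * (D⁻¹ * ∑' y, e y) := by
          rw [← mul_assoc, ENNReal.mul_inv_cancel hD0 hDt, one_mul]
      _ ≤ D * cap s (F : Set (Fin d → ℤ)) := by gcongr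

end Pool.Agent.Y202.ARW
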