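import Pool.Agent.Y202.ARW.Upper

/-!
# Wiener test for additive random walks
-/

set_option autoImplicit false
set_option linter.unusedSectionVars false
set_option maxHeartbeats 400000

open scoped ENNReal
open Finset MeasureTheory ProbabilityTheory

namespace Pool.Agent.Y202.ARW

open Pool.Agent.H380R3.ARW

variable {d : ℕ}

/-- uniform lower bound of hitting probabilities (variant of `core` with a hypothesis on the
potentials) -/
lemma core2 {μ : (Fin d → ℤ) → ℝ≥0∞} (hμ : ∑' e, μ e = 1) {a c C : ℝ≥0∞}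
    (ha : 1 < a) (hc : c ≠ 0) (hC : C ≠ ∞)
    (hg : ∀ x, c * kap a x ≤ gr μ x ∧ gr μ x ≤ C * kap a x) (N : ℕ)
    (hN : a ^ (N + 1) < DD d) {Cp : ℝ≥0∞} (hCpt : Cp ≠ ∞)
    (ν : ℕ → (Fin d → ℤ) → ℝ≥0∞) (hsupp : ∀ n y, ν n y ≠ 0 → y ∈ SS d (n + 1))
    (hpot : ∀ n z, op (kap (a ^ (N + 1))) (ν n) z ≤ Cp * (a ^ (N + 1) / DD d) ^ (n + 1))
    (hmt : ∀ n, ∑' y, ν n y ≠ ∞)
    (hinf : ∑' n, ∑' y, ν n y = ∞) :
    ∃ δ : ℝ≥0∞, δ ≠ 0 ∧ ∀ (K : ℕ) (x : Fin d → ℤ),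
      δ ≤ ⨆ T, prob μ T T (N + 1) {y | ∃ n, K ≤ n ∧ ν n y ≠ 0} x := by
  classical
  obtain ⟨C2, hC2, hsm⟩ := second_moment_final hμ ha hC (fun x => (hg x).2) N hN
  obtain ⟨c2, hc2, hlow⟩ := iter_lower ha hc (fun x => (hg x).1) N hN
  set σ : ℝ≥0∞ := a ^ (N + 1) with hσ
  have hσ1 : 1 < σ := one_lt_pow' ha (Nat.succ_ne_zero N)
  have hσ0 : σ ≠ 0 := (lt_trans zero_lt_one hσ1).ne'
  have hσt : σ ≠ ∞ := (hN.trans_le le_top).ne
  set m : ℕ → ℝ≥0∞ := fun n => ∑' y, ν n y with hm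
  set q : ℝ≥0∞ := σ / DD d with hq
  have hq0 : q ≠ 0 := (ENNReal.div_pos hσ0 DD_ne_top).ne'
  have hq1 : q < 1 := div_DD_lt_one hN
  have hqt : q ≠ ∞ := (hq1.trans_le le_top).ne
  have hqit : q⁻¹ ≠ ∞ := ENNReal.inv_ne_top.2 hq0
  set Cθ : ℝ≥0∞ := (5 * Cp + q⁻¹) * q⁻¹ + q⁻¹ * q⁻¹ with hCθ
  have hCθt : Cθ ≠ ∞ := ENNReal.add_ne_top.2 ⟨ENNReal.mul_ne_top (ENNReal.add_ne_top.2
    ⟨ENNReal.mul_ne_top (by norm_num) hCpt, hqit⟩) hqit, ENNReal.mul_ne_top hqit hqit⟩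
  set B : ℝ≥0∞ := C2 * Cθ + 1 with hB
  have hBt : B ≠ ∞ := ENNReal.add_ne_top.2 ⟨ENNReal.mul_ne_top hC2 hCθt, by simp⟩
  have hB0 : B ≠ 0 := (lt_of_lt_of_le zero_lt_one le_add_self).ne'
  set c3 : ℝ≥0∞ := min c2 1 with hc3
  have hc30 : c3 ≠ 0 := (lt_min (pos_iff_ne_zero.2 hc2) zero_lt_one).ne'
  have hc3t : c3 ≠ ∞ := ((min_le_right c2 1).trans_lt ENNReal.one_lt_top).ne
  set c5 : ℝ≥0∞ := c3 * q ^ 2 with hc5
  have hc50 : c5 ≠ 0 := mul_ne_zero hc30 (pow_ne_zero _ hq0)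
  have hc5t : c5 ≠ ∞ := ENNReal.mul_ne_top hc3t (ENNReal.pow_ne_top hqt)
  set c4 : ℝ≥0∞ := c5 / 2 with hc4
  have hc40 : c4 ≠ 0 := (ENNReal.div_pos hc50 (by norm_num)).ne'
  have hc4t : c4 ≠ ∞ := ENNReal.div_ne_top hc5t (by norm_num)
  have hc45 : c4 < c5 := ENNReal.half_lt_self hc50 hc5t
  set r : ℝ≥0∞ := c4 / B with hrdef
  have hr0 : r ≠ 0 := (ENNReal.div_pos hc40 hBt).ne'
  have hrt : r ≠ ∞ := ENNReal.div_ne_top hc4t hB0
  have hrB : r * B = c4 := ENNReal.div_mul_cancel hB0 hBt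
  refine ⟨r * c4, mul_ne_zero hr0 hc40, fun K x => ?_⟩
  obtain ⟨s, hs, hs1⟩ := exists_block m hmt hinf (max K (sz x + 3))
  set T : ℝ≥0∞ := ∑ n ∈ s, m n with hT
  have hT0 : T ≠ 0 := (lt_of_lt_of_le zero_lt_one hs1).ne'
  have hTt : T ≠ ∞ := ENNReal.sum_ne_top.2 fun n _ => hmt n
  set f : (Fin d → ℤ) → ℝ≥0∞ := wsum q ν s with hf
  obtain ⟨hup, hlo⟩ := wsum_start hσ0 hN ν hsupp s x
    (fun n hn => (le_max_right _ _).trans (hs n hn))
  have hTh : Th (kap σ) f x ≤ Cθ * T ^ 2 := by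
    unfold Th
    have h1 : op (kap σ) (fun v => f v * op (kap σ) f v) x
        ≤ (5 * Cp + q⁻¹ * T) * (q⁻¹ * T) := by
      calc op (kap σ) (fun v => f v * op (kap σ) f v) x
          ≤ op (kap σ) (fun v => (5 * Cp + q⁻¹ * T) * f v) x := by
            refine op_mono _ (fun v => ?_) x
            by_cases hv : f v = 0
            · rw [hv, zero_mul, mul_zero]
            · rw [mul_comm]
              gcongr
              exact wsum_near hσ0 hN Cp ν hsupp hpot s v hv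
        _ = (5 * Cp + q⁻¹ * T) * op (kap σ) f x := op_mul_left _ _ _ _
        _ ≤ _ := by gcongr
    calc op (kap σ) (fun v => f v * op (kap σ) f v) x + (op (kap σ) f x) ^ 2
        ≤ (5 * Cp + q⁻¹ * T) * (q⁻¹ * T) + (q⁻¹ * T) ^ 2 := by gcongr
      _ ≤ (5 * Cp * T + q⁻¹ * T) * (q⁻¹ * T) + (q⁻¹ * T) ^ 2 :=
          add_le_add (mul_le_mul' (add_le_add (le_mul_of_one_le_right' hs1) le_rfl) le_rfl) le_rfl
      _ = Cθ * T ^ 2 := by rw [hCθ]; ring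
  have hlow2 : c4 * T < ⨆ L, (UT μ L)^[N + 1] f x := by
    rw [iSup_iter_UT]
    calc c4 * T < c5 * T := ENNReal.mul_lt_mul_left hT0 hTt hc45
      _ = c3 * (q ^ 2 * T) := by rw [hc5]; ring
      _ ≤ c2 * op (kap σ) f x := mul_le_mul' (min_le_left _ _) hlo
      _ ≤ _ := hlow f x
  obtain ⟨L, hL⟩ := lt_iSup_iff.1 hlow2
  have h5 := hit_lower hμ L (N + 1) f (r / T) x
  have hrT : r / T * T = r := ENNReal.div_mul_cancel hT0 hTt
  have h6 : 2 * (r * c4) ≤ r * c4 + prob μ L L (N + 1) {y | f y ≠ 0} x := by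
    calc 2 * (r * c4) = 2 * (r / T * (c4 * T)) := by
          conv_lhs => rw [← hrT]
          ring
      _ ≤ 2 * (r / T * (UT μ L)^[N + 1] f x) := by gcongr
      _ ≤ (r / T) ^ 2 * ExL μ L (N + 1) (fun w => (occL f x w) ^ 2)
            + prob μ L L (N + 1) {y | f y ≠ 0} x := h5
      _ ≤ (r / T) ^ 2 * (B * T ^ 2) + prob μ L L (N + 1) {y | f y ≠ 0} x := by
          gcongr
          calc ExL μ L (N + 1) (fun w => (occL f x w) ^ 2) ≤ C2 * Th (kap σ) f x := hsm f x L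
            _ ≤ C2 * (Cθ * T ^ 2) := by gcongr
            _ = (C2 * Cθ) * T ^ 2 := by ring
            _ ≤ B * T ^ 2 := by gcongr; exact le_self_add
      _ = (r / T * T) * ((r / T * T) * B) + prob μ L L (N + 1) {y | f y ≠ 0} x := by ring
      _ = r * c4 + prob μ L L (N + 1) {y | f y ≠ 0} x := by rw [hrT, hrB]
  have h7 : r * c4 ≤ prob μ L L (N + 1) {y | f y ≠ 0} x := by
    rw [two_mul] at h6
    exact (ENNReal.add_le_add_iff_left (ENNReal.mul_ne_top hrt hc4t)).1 h6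
  refine h7.trans (le_trans ?_ (le_iSup (fun T => prob μ T T (N + 1)
    {y | ∃ n, K ≤ n ∧ ν n y ≠ 0} x) L))
  refine prob_mono_set μ L L (N + 1) (fun y hy => ?_) x
  by_contra hcon
  apply hy
  rw [hf]
  unfold wsum
  refine Finset.sum_eq_zero fun n hn => ?_
  have : ν n y = 0 := by
    by_contra hne
    exact hcon ⟨n, (le_max_left _ _).trans (hs n hn), hne⟩
  rw [this, mul_zero]


end Pool.Agent.Y202.ARW
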