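import Mathlib

/-!
# Equilibrium functions of finite sets for symmetric nonnegative kernels
-/

set_option autoImplicit false

open Finset

namespace Pool.Agent.Y202.ARW

variable {ι : Type*} [Fintype ι] [DecidableEq ι]

/-- the quadratic functional `∑ f - (1/2) ⟨f, K f⟩` -/
noncomputable def Phi (K : ι → ι → ℝ) (f : ι → ℝ) : ℝ :=
  ∑ i, f i - (1 / 2) * ∑ i, ∑ j, K i j * f i * f j

lemma Phi_single (K : ι → ι → ℝ) (hsym : ∀ i j, K i j = K j i) (f : ι → ℝ) (x : ι) (t : ℝ) :
    Phi K (fun i => f i + t * (if i = x then 1 else 0))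
      = Phi K f + t * (1 - ∑ j, K x j * f j) - t ^ 2 / 2 * K x x := by
  have e1 : ∑ i, (f i + t * (if i = x then (1 : ℝ) else 0)) = ∑ i, f i + t := by
    rw [sum_add_distrib, ← mul_sum]
    simp
  have e2 : ∑ i, ∑ j, K i j * (f i + t * (if i = x then 1 else 0))
      * (f j + t * (if j = x then 1 else 0))
      = ∑ i, ∑ j, K i j * f i * f j + t * (∑ i, ∑ j, (if i = x then K i j * f j else 0))
        + t * (∑ i, ∑ j, (if j = x then K i j * f i else 0))
        + t ^ 2 * ∑ i, ∑ j, (if i = x then (if j = x then K i j else 0) else 0) := by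
    rw [mul_sum, mul_sum, mul_sum, ← sum_add_distrib, ← sum_add_distrib, ← sum_add_distrib]
    refine sum_congr rfl fun i _ => ?_
    rw [mul_sum, mul_sum, mul_sum, ← sum_add_distrib, ← sum_add_distrib, ← sum_add_distrib]
    refine sum_congr rfl fun j _ => ?_
    split_ifs <;> ring
  have e3 : ∑ i, ∑ j, (if i = x then K i j * f j else 0) = ∑ j, K x j * f j := by
    rw [sum_comm]
    refine sum_congr rfl fun j _ => ?_
    simp
  have e4 : ∑ i, ∑ j, (if j = x then K i j * f i else 0) = ∑ j, K x j * f j := by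
    refine sum_congr rfl fun i _ => ?_
    simp [hsym i x]
  have e5 : ∑ i, ∑ j, (if i = x then (if j = x then K i j else 0) else 0) = K x x := by
    rw [sum_eq_single x]
    · simp
    · intro i _ hi
      simp [hi]
    · simp
  unfold Phi
  rw [e1, e2, e3, e4, e5]
  ring

lemma exists_equi (K : ι → ι → ℝ) (hsym : ∀ i j, K i j = K j i) (h0 : ∀ i j, 0 ≤ K i j)
    (h1 : ∀ i, K i i = 1) : ∃ f : ι → ℝ, (∀ i, 0 ≤ f i) ∧ (∀ i, 1 ≤ ∑ j, K i j * f j) ∧
      ∀ i, 0 < f i → ∑ j, K i j * f j ≤ 1 := by
  have hcomp : IsCompact (Set.Icc (0 : ι → ℝ) 1) := isCompact_Icc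
  have hne : (Set.Icc (0 : ι → ℝ) 1).Nonempty := ⟨0, le_rfl, zero_le_one⟩
  have hcont : ContinuousOn (Phi K) (Set.Icc (0 : ι → ℝ) 1) := by
    unfold Phi
    fun_prop
  obtain ⟨f, hf, hmax⟩ := hcomp.exists_isMaxOn hne hcont
  have hf0 : ∀ i, 0 ≤ f i := fun i => hf.1 i
  have hf1 : ∀ i, f i ≤ 1 := fun i => hf.2 i
  have key : ∀ (x : ι) (t : ℝ), 0 ≤ f x + t → f x + t ≤ 1 →
      t * (1 - ∑ j, K x j * f j) - t ^ 2 / 2 ≤ 0 := by
    intro x t ht0 ht1
    have hmem : (fun i => f i + t * (if i = x then 1 else 0)) ∈ Set.Icc (0 : ι → ℝ) 1 := by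
      constructor
      · intro i
        show 0 ≤ f i + t * (if i = x then 1 else 0)
        by_cases h : i = x
        · rw [if_pos h, h]; linarith
        · rw [if_neg h]; have := hf0 i; linarith
      · intro i
        show f i + t * (if i = x then 1 else 0) ≤ 1
        by_cases h : i = x
        · rw [if_pos h, h]; linarith
        · rw [if_neg h]; have := hf1 i; linarith
    have h2 := hmax hmem
    simp only [Set.mem_setOf_eq] at h2
    rw [Phi_single K hsym f x t, h1 x] at h2
    linarith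
  refine ⟨f, hf0, fun x => ?_, fun x hx => ?_⟩
  · by_contra hlt
    push Not at hlt
    set s := ∑ j, K x j * f j with hs
    have hxs : f x ≤ s := by
      have h3 := Finset.single_le_sum (f := fun j => K x j * f j)
        (fun j _ => mul_nonneg (h0 x j) (hf0 j)) (Finset.mem_univ x)
      simp only [h1 x, one_mul] at h3
      exact h3
    set t := 1 - s with ht
    have htp : 0 < t := by linarith
    have h4 := key x t (by have := hf0 x; linarith) (by linarith)
    have h5 : t * (1 - s) - t ^ 2 / 2 = t ^ 2 / 2 := by rw [← ht]; ring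
    rw [h5] at h4
    have : 0 < t ^ 2 / 2 := by positivity
    linarith
  · by_contra hlt
    push Not at hlt
    set s := ∑ j, K x j * f j with hs
    set u := min (f x) (s - 1) with hu
    have hu0 : 0 < u := lt_min hx (by linarith)
    have hu1 : u ≤ f x := min_le_left _ _
    have hu2 : u ≤ s - 1 := min_le_right _ _
    have h4 := key x (-u) (by linarith) (by have := hf1 x; linarith)
    have h5 : (-u) * (1 - s) - (-u) ^ 2 / 2 = u * (s - 1) - u ^ 2 / 2 := by ring
    rw [h5] at h4
    have h6 : u ^ 2 ≤ u * (s - 1) := by rw [sq]; exact mul_le_mul_of_nonneg_left hu2 hu0.le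
    have : 0 < u ^ 2 := by positivity
    linarith

end Pool.Agent.Y202.ARW
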