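import Pool.Agent.Y202.ARW.Cap

/-!
# Hitting probabilities of finite sets and equilibrium potentials
-/

set_option autoImplicit false
set_option linter.unusedSectionVars false
set_option maxHeartbeats 400000

open scoped ENNReal
open Finset MeasureTheory ProbabilityTheory

namespace Pool.Agent.Y202.ARW

open Pool.Agent.H380R3.ARW

variable {d : ℕ}

lemma Th_le {σ : ℝ≥0∞} (hσ0 : σ ≠ 0) (hσ : σ < DD d) {F : Finset (Fin d → ℤ)}
    {e : (Fin d → ℤ) → ℝ≥0∞} (he : IsEq σ F e) (x : Fin d → ℤ) :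
    Th (kap σ) e x ≤ (1 + (σ / DD d)⁻¹) * op (kap σ) e x := by
  have h1 : op (kap σ) (fun v => e v * op (kap σ) e v) x ≤ op (kap σ) e x := by
    refine op_mono _ (fun v => ?_) x
    by_cases h : e v = 0
    · rw [h, zero_mul]
    · exact mul_le_of_le_one_right' (he.le_one v h)
  unfold Th
  calc op (kap σ) (fun v => e v * op (kap σ) e v) x + (op (kap σ) e x) ^ 2
      ≤ op (kap σ) e x + (σ / DD d)⁻¹ * op (kap σ) e x := by
        rw [sq]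
        exact add_le_add h1 (mul_le_mul' (he.le hσ0 hσ x) le_rfl)
    _ = _ := by ring

/-- upper bound -/
lemma set_prob {μ : (Fin d → ℤ) → ℝ≥0∞} (hμ : ∑' e, μ e = 1) {a c C : ℝ≥0∞}
    (ha : 1 < a) (hc : c ≠ 0) (hC : C ≠ ∞)
    (hg : ∀ x, c * kap a x ≤ gr μ x ∧ gr μ x ≤ C * kap a x) (N : ℕ)
    (hN : a ^ (N + 1) < DD d) :
    ∃ K : ℝ≥0∞, K ≠ ∞ ∧ ∀ (F : Finset (Fin d → ℤ)) (e : (Fin d → ℤ) → ℝ≥0∞)
      (_ : IsEq (a ^ (N + 1)) F e), ∃ L0, ∀ L, L0 ≤ L →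
        prob μ (2 * L) L (N + 1) (F : Set (Fin d → ℤ)) 0 ≤ K * op (kap (a ^ (N + 1))) e 0 := by
  classical
  obtain ⟨C2, hC2, hsm⟩ := second_moment_final hμ ha hC (fun x => (hg x).2) N hN
  obtain ⟨c2, hc2, hlow⟩ := iter_lower ha hc (fun x => (hg x).1) N hN
  set σ : ℝ≥0∞ := a ^ (N + 1) with hσ
  have hσ1 : 1 < σ := one_lt_pow' ha (Nat.succ_ne_zero N)
  have hσ0 : σ ≠ 0 := (lt_trans zero_lt_one hσ1).ne'
  have hq0 : σ / DD d ≠ 0 := (ENNReal.div_pos hσ0 DD_ne_top).ne'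
  set c3 : ℝ≥0∞ := min c2 1 with hc3
  have hc30 : c3 ≠ 0 := (lt_min (pos_iff_ne_zero.2 hc2) zero_lt_one).ne'
  have hc3t : c3 ≠ ∞ := ((min_le_right c2 1).trans_lt ENNReal.one_lt_top).ne
  set c4 : ℝ≥0∞ := c3 / 2 with hc4
  have hc40 : c4 ≠ 0 := (ENNReal.div_pos hc30 (by norm_num)).ne'
  have hc4t : c4 ≠ ∞ := ENNReal.div_ne_top hc3t (by norm_num)
  have hc43 : c4 < c3 := ENNReal.half_lt_self hc30 hc3t
  refine ⟨(c4 ^ 2)⁻¹ * (4 ^ (N + 1) * (C2 * (1 + (σ / DD d)⁻¹))), ?_, ?_⟩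
  · refine ENNReal.mul_ne_top ?_ (ENNReal.mul_ne_top ?_ (ENNReal.mul_ne_top hC2
      (ENNReal.add_ne_top.2 ⟨by simp, ENNReal.inv_ne_top.2 hq0⟩)))
    · rw [ENNReal.inv_ne_top]; exact pow_ne_zero _ hc40
    · exact ENNReal.pow_ne_top (by norm_num)
  intro F e he
  have hex : ∀ z ∈ F, ∃ L, c4 ≤ (UT μ L)^[N + 1] e z := by
    intro z hz
    have h1 : c4 < ⨆ L, (UT μ L)^[N + 1] e z := by
      rw [iSup_iter_UT]
      refine lt_of_lt_of_le ?_ (hlow e z)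
      calc c4 < c3 := hc43
        _ = c3 * 1 := (mul_one _).symm
        _ ≤ c2 * op (kap σ) e z := mul_le_mul' (min_le_left _ _) (he.one_le z hz)
    obtain ⟨L, hL⟩ := lt_iSup_iff.1 h1
    exact ⟨L, hL.le⟩
  choose! Lz hLz using hex
  refine ⟨F.sup Lz, fun L hL => ?_⟩
  have hall : ∀ y ∈ (F : Set (Fin d → ℤ)), c4 ≤ (UT μ L)^[N + 1] e y := by
    intro y hy
    have hy' : y ∈ F := by simpa using hy
    refine (hLz y hy').trans ?_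
    exact iter_UT_mono (N + 1) e ((Finset.le_sup hy').trans hL) y
  have h5 := hit_upper hμ L (N + 1) (F : Set (Fin d → ℤ)) e c4 0 hall
  have hc42 : c4 ^ 2 ≠ 0 := pow_ne_zero _ hc40
  have hc42t : c4 ^ 2 ≠ ∞ := ENNReal.pow_ne_top hc4t
  calc prob μ (2 * L) L (N + 1) (F : Set (Fin d → ℤ)) 0
      = (c4 ^ 2)⁻¹ * (c4 ^ 2 * prob μ (2 * L) L (N + 1) (F : Set (Fin d → ℤ)) 0) := by
        rw [← mul_assoc, ENNReal.inv_mul_cancel hc42 hc42t, one_mul]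
    _ ≤ (c4 ^ 2)⁻¹ * (4 ^ (N + 1) * ExL μ (2 * L) (N + 1) (fun w => occL e 0 w ^ 2)) := by
        gcongr
    _ ≤ (c4 ^ 2)⁻¹ * (4 ^ (N + 1) * (C2 * Th (kap σ) e 0)) := by
        gcongr
        exact hsm e 0 _
    _ ≤ (c4 ^ 2)⁻¹ * (4 ^ (N + 1) * (C2 * ((1 + (σ / DD d)⁻¹) * op (kap σ) e 0))) := by
        gcongr
        exact Th_le hσ0 hN he 0
    _ = _ := by ring

/-- lower bound -/
lemma set_prob_lower {μ : (Fin d → ℤ) → ℝ≥0∞} (hμ : ∑' e, μ e = 1) {a c C : ℝ≥0∞}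
    (ha : 1 < a) (hc : c ≠ 0) (hC : C ≠ ∞)
    (hg : ∀ x, c * kap a x ≤ gr μ x ∧ gr μ x ≤ C * kap a x) (N : ℕ)
    (hN : a ^ (N + 1) < DD d) :
    ∃ δ : ℝ≥0∞, δ ≠ 0 ∧ ∀ (F : Finset (Fin d → ℤ)) (e : (Fin d → ℤ) → ℝ≥0∞)
      (_ : IsEq (a ^ (N + 1)) F e),
        δ * op (kap (a ^ (N + 1))) e 0 ≤
          ⨆ T, prob μ T T (N + 1) (F : Set (Fin d → ℤ)) 0 := by
  classical
  obtain ⟨C2, hC2, hsm⟩ := second_moment_final hμ ha hC (fun x => (hg x).2) N hN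
  obtain ⟨c2, hc2, hlow⟩ := iter_lower ha hc (fun x => (hg x).1) N hN
  set σ : ℝ≥0∞ := a ^ (N + 1) with hσ
  have hσ1 : 1 < σ := one_lt_pow' ha (Nat.succ_ne_zero N)
  have hσ0 : σ ≠ 0 := (lt_trans zero_lt_one hσ1).ne'
  have hq0 : σ / DD d ≠ 0 := (ENNReal.div_pos hσ0 DD_ne_top).ne'
  set B : ℝ≥0∞ := C2 * (1 + (σ / DD d)⁻¹) + 1 with hB
  have hBt : B ≠ ∞ := ENNReal.add_ne_top.2 ⟨ENNReal.mul_ne_top hC2
    (ENNReal.add_ne_top.2 ⟨by simp, ENNReal.inv_ne_top.2 hq0⟩), by simp⟩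
  have hB0 : B ≠ 0 := (lt_of_lt_of_le zero_lt_one le_add_self).ne'
  set c3 : ℝ≥0∞ := min c2 1 with hc3
  have hc30 : c3 ≠ 0 := (lt_min (pos_iff_ne_zero.2 hc2) zero_lt_one).ne'
  have hc3t : c3 ≠ ∞ := ((min_le_right c2 1).trans_lt ENNReal.one_lt_top).ne
  set c4 : ℝ≥0∞ := c3 / 2 with hc4
  have hc40 : c4 ≠ 0 := (ENNReal.div_pos hc30 (by norm_num)).ne'
  have hc4t : c4 ≠ ∞ := ENNReal.div_ne_top hc3t (by norm_num)
  have hc43 : c4 < c3 := ENNReal.half_lt_self hc30 hc3t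
  set r : ℝ≥0∞ := c4 / B with hrdef
  have hr0 : r ≠ 0 := (ENNReal.div_pos hc40 hBt).ne'
  have hrt : r ≠ ∞ := ENNReal.div_ne_top hc4t hB0
  have hrB : r * B = c4 := ENNReal.div_mul_cancel hB0 hBt
  refine ⟨r * c4, mul_ne_zero hr0 hc40, fun F e he => ?_⟩
  set V : ℝ≥0∞ := op (kap σ) e 0 with hV
  have hVt : V ≠ ∞ := ne_top_of_le_ne_top (ENNReal.inv_ne_top.2 hq0) (he.le hσ0 hN 0)
  by_cases hV0 : V = 0
  · rw [hV0, mul_zero]
    exact bot_le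
  have hlow2 : c4 * V < ⨆ L, (UT μ L)^[N + 1] e 0 := by
    rw [iSup_iter_UT]
    calc c4 * V < c3 * V := ENNReal.mul_lt_mul_left hV0 hVt hc43
      _ ≤ c2 * op (kap σ) e 0 := mul_le_mul' (min_le_left _ _) le_rfl
      _ ≤ _ := hlow e 0
  obtain ⟨L, hL⟩ := lt_iSup_iff.1 hlow2
  have h5 := hit_lower hμ L (N + 1) e r 0
  have h6 : 2 * (r * c4 * V) ≤ r * c4 * V + prob μ L L (N + 1) {y | e y ≠ 0} 0 := by
    calc 2 * (r * c4 * V) = 2 * (r * (c4 * V)) := by ring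
      _ ≤ 2 * (r * (UT μ L)^[N + 1] e 0) := by gcongr
      _ ≤ r ^ 2 * ExL μ L (N + 1) (fun w => (occL e 0 w) ^ 2)
            + prob μ L L (N + 1) {y | e y ≠ 0} 0 := h5
      _ ≤ r ^ 2 * (B * V) + prob μ L L (N + 1) {y | e y ≠ 0} 0 := by
          gcongr
          calc ExL μ L (N + 1) (fun w => (occL e 0 w) ^ 2) ≤ C2 * Th (kap σ) e 0 := hsm e 0 L
            _ ≤ C2 * ((1 + (σ / DD d)⁻¹) * V) := by
                gcongr
                exact Th_le hσ0 hN he 0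
            _ = (C2 * (1 + (σ / DD d)⁻¹)) * V := by ring
            _ ≤ B * V := by gcongr; exact le_self_add
      _ = r * (r * B) * V + prob μ L L (N + 1) {y | e y ≠ 0} 0 := by ring
      _ = _ := by rw [hrB]
  have h7 : r * c4 * V ≤ prob μ L L (N + 1) {y | e y ≠ 0} 0 := by
    rw [two_mul] at h6
    exact (ENNReal.add_le_add_iff_left (ENNReal.mul_ne_top (ENNReal.mul_ne_top hrt hc4t)
      hVt)).1 h6
  refine h7.trans (le_trans ?_ (le_iSup (fun T => prob μ T T (N + 1)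
    (F : Set (Fin d → ℤ)) 0) L))
  refine prob_mono_set μ L L (N + 1) (fun y hy => ?_) 0
  by_contra hcon
  exact hy (he.supp y (by simpa using hcon))

end Pool.Agent.Y202.ARW
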