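import Pool.Agent.Y202.ARW.Core2

/-!
# Wiener test for additive random walks: assembly
-/

set_option autoImplicit false
set_option linter.unusedSectionVars false
set_option maxHeartbeats 400000

open scoped ENNReal
open Finset MeasureTheory ProbabilityTheory

namespace Pool.Agent.Y202.ARW

open Pool.Agent.H380R3.ARW

variable {d N : ℕ} {Ω : Type*} [MeasurableSpace Ω] {P : Measure Ω} [IsProbabilityMeasure P]
  {ξ : Fin N → ℕ → Ω → Fin d → ℤ} {α : ℝ}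

lemma SS_finite (k : ℕ) {B : Set (Fin d → ℤ)} (hB : B ⊆ SS d (k + 1)) : B.Finite :=
  (VV_finite (k + 1)).subset fun _ hx => (hB hx).1

/-- hitting probabilities of subsets of a shell are comparable to their capacities -/
theorem hit_cap (hW : AddWalk P α ξ) (hα : 0 < α) (hN : 0 < N) (hdim : α * N < d) :
    ∃ c C : ℝ≥0∞, c ≠ 0 ∧ C ≠ ∞ ∧ ∀ (k : ℕ) (B : Set (Fin d → ℤ)), B ⊆ SS d (k + 1) →
      c * (ENNReal.ofReal (2 ^ (-((d : ℝ) - α * N) * (k + 1 : ℕ))) * cap (α * N) B)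
        ≤ P {ω | (rangeSet ξ ω ∩ B).Nonempty} ∧
      P {ω | (rangeSet ξ ω ∩ B).Nonempty}
        ≤ C * (ENNReal.ofReal (2 ^ (-((d : ℝ) - α * N) * (k + 1 : ℕ))) * cap (α * N) B) := by
  obtain ⟨n, rfl⟩ : ∃ n, N = n + 1 := ⟨N - 1, by omega⟩
  have hαd : α < d := by
    refine lt_of_le_of_lt ?_ hdim
    push_cast
    nlinarith [(Nat.cast_nonneg n : (0 : ℝ) ≤ n)]
  have hd : d ≠ 0 := by
    rintro rfl
    simp at hαd
    linarith
  obtain ⟨μ, hμ, hlaw, c, C, hc, hC, hg⟩ := hW.data (Nat.succ_pos n) hd hαd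
  have hpow : ENNReal.ofReal (2 ^ α) ^ (n + 1) = ENNReal.ofReal (2 ^ (α * (n + 1 : ℕ))) :=
    ofReal_rpow_pow (n + 1)
  have hlt : ENNReal.ofReal (2 ^ α) ^ (n + 1) < DD d := by
    rw [hpow]; exact ofReal_lt_DD hdim
  obtain ⟨K, hK, hup⟩ := set_prob hμ (one_lt_ofReal hα) hc hC hg n hlt
  obtain ⟨δ, hδ, hlo⟩ := set_prob_lower hμ (one_lt_ofReal hα) hc hC hg n hlt
  rw [hpow] at hup hlo
  obtain ⟨c1, C1, hc1, hC1, hcap⟩ := cap_bounds hd hdim
  set σ : ℝ≥0∞ := ENNReal.ofReal (2 ^ (α * (n + 1 : ℕ))) with hσ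
  have hσ0 : σ ≠ 0 := (ENNReal.ofReal_pos.2 (by positivity)).ne'
  have hσd : σ < DD d := ofReal_lt_DD hdim
  have hq0 : σ / DD d ≠ 0 := (ENNReal.div_pos hσ0 DD_ne_top).ne'
  have hqt : σ / DD d ≠ ∞ := ((div_DD_lt_one hσd).trans_le le_top).ne
  have hw : ∀ k : ℕ, ENNReal.ofReal (2 ^ (-((d : ℝ) - α * (n + 1 : ℕ)) * (k + 1 : ℕ)))
      = (σ / DD d) ^ (k + 1) := fun k => (rpow_div_DD _ _).symm
  have hc10 : c1 + 1 ≠ 0 := (lt_of_lt_of_le zero_lt_one le_add_self).ne'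
  have hc1t : c1 + 1 ≠ ∞ := ENNReal.add_ne_top.2 ⟨hc1, by simp⟩
  refine ⟨δ * (σ / DD d) * (c1 + 1)⁻¹, K * C1, mul_ne_zero (mul_ne_zero hδ hq0)
    (ENNReal.inv_ne_zero.2 hc1t), ENNReal.mul_ne_top hK hC1, fun k B hB => ?_⟩
  have hfin := SS_finite k hB
  obtain ⟨e, he⟩ := exists_isEq hσd hfin.toFinset
  have hF : (hfin.toFinset : Set (Fin d → ℤ)) = B := hfin.coe_toFinset
  obtain ⟨hcap1, hcap2⟩ := hcap hfin.toFinset e he
  rw [hF] at hcap1 hcap2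
  have hsupp : ∀ y, e y ≠ 0 → k + 1 ≤ sz (y - 0) ∧ sz (y - 0) ≤ k + 2 := by
    intro y hy
    have hyB : y ∈ B := by
      by_contra hcon
      exact hy (he.supp y fun h => hcon (hfin.mem_toFinset.1 h))
    rw [sub_zero]
    exact SS_sz (hB hyB)
  have hfar := pot_far hσd (k + 1) e 0 fun y hy => (hsupp y hy).1
  have hfar2 := pot_far_lower hσd (k + 2) e 0 fun y hy => (hsupp y hy).2
  rw [hw]
  constructor
  · have h1 := hlo hfin.toFinset e he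
    rw [hF] at h1
    have h2 : P {ω | (rangeSet ξ ω ∩ B).Nonempty} = ⨆ T, prob μ T T (n + 1) B 0 := by
      rw [hit_prob_eq]
      exact iSup_congr fun L => Ev_prob hW.measurable hW.indep μ hlaw L L le_rfl _
    rw [h2]
    calc δ * (σ / DD d) * (c1 + 1)⁻¹ * ((σ / DD d) ^ (k + 1) * cap (α * (n + 1 : ℕ)) B)
        ≤ δ * (σ / DD d) * (c1 + 1)⁻¹ * ((σ / DD d) ^ (k + 1) * ((c1 + 1) * ∑' y, e y)) := by
          gcongr
          exact hcap1.trans (mul_le_mul' le_self_add le_rfl)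
      _ = δ * ((c1 + 1)⁻¹ * (c1 + 1)) * ((σ / DD d) ^ (k + 2) * ∑' y, e y) := by
          rw [pow_succ (σ / DD d) (k + 1)]; ring
      _ = δ * ((σ / DD d) ^ (k + 2) * ∑' y, e y) := by
          rw [ENNReal.inv_mul_cancel hc10 hc1t, mul_one]
      _ ≤ δ * op (kap σ) e 0 := by gcongr
      _ ≤ _ := h1
  · obtain ⟨L0, hL0⟩ := hup hfin.toFinset e he
    rw [hF] at hL0
    rw [hit_prob_eq]
    refine iSup_le fun L => ?_
    refine (measure_mono (Ev_mono (ξ := ξ) B (le_max_left L L0))).trans ?_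
    rw [Ev_prob hW.measurable hW.indep μ hlaw (max L L0) (2 * max L L0) (by omega)]
    refine (hL0 _ (le_max_right _ _)).trans ?_
    calc K * op (kap σ) e 0 ≤ K * ((σ / DD d) ^ (k + 1) * ∑' y, e y) := by gcongr
      _ ≤ K * ((σ / DD d) ^ (k + 1) * (C1 * cap (α * (n + 1 : ℕ)) B)) := by gcongr
      _ = _ := by ring

/-- convergence part of the Wiener test -/
theorem wiener_fin (hW : AddWalk P α ξ) (hα : 0 < α) (hN : 0 < N) (hdim : α * N < d)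
    (A : Set (Fin d → ℤ))
    (hA : ∑' k : ℕ, ENNReal.ofReal (2 ^ (-((d : ℝ) - α * N) * (k + 1 : ℕ)))
      * cap (α * N) (A ∩ SS d (k + 1)) ≠ ∞) :
    ∀ᵐ ω ∂P, Bornology.IsBounded (rangeSet ξ ω ∩ A) := by
  classical
  obtain ⟨_, K, -, hK, h⟩ := hit_cap hW hα hN hdim
  have hfin : ∑' k : ℕ, P {ω | (rangeSet ξ ω ∩ (A ∩ SS d (k + 1))).Nonempty} ≠ ∞ := by
    refine ne_top_of_le_ne_top ?_ (ENNReal.tsum_le_tsum fun k =>
      (h k (A ∩ SS d (k + 1)) Set.inter_subset_right).2)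
    rw [ENNReal.tsum_mul_left]
    exact ENNReal.mul_ne_top hK hA
  filter_upwards [ae_eventually_notMem hfin] with ω hω
  obtain ⟨k0, hk0⟩ := Filter.eventually_atTop.1 hω
  refine ((VV_finite (d := d) k0).subset ?_).isBounded
  rintro x ⟨hx1, hx2⟩
  by_contra hx3
  have hP : ∃ m, x ∈ VV d (m + 1) := ⟨sz x, VV_mono (Nat.le_succ _) (exists_VV x)⟩
  have hm1 := Nat.find_spec hP
  set m := Nat.find hP with hm
  have hm2 : x ∉ VV d m := by
    intro hxm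
    rcases Nat.eq_zero_or_pos m with h0 | hpos
    · rw [h0] at hxm
      exact hx3 (VV_mono (Nat.zero_le _) hxm)
    · obtain ⟨m', hm'⟩ := Nat.exists_eq_succ_of_ne_zero hpos.ne'
      rw [hm'] at hxm
      have := Nat.find_min' hP hxm
      omega
  have hk : k0 ≤ m := by
    by_contra hlt
    exact hx3 (VV_mono (by omega) hm1)
  exact hk0 m hk ⟨x, hx1, hx2, hm1, hm2⟩

/-- divergence part of the Wiener test -/
theorem wiener_inf (hW : AddWalk P α ξ) (hα : 0 < α) (hN : 0 < N) (hdim : α * N < d)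
    (A : Set (Fin d → ℤ))
    (hA : ∑' k : ℕ, ENNReal.ofReal (2 ^ (-((d : ℝ) - α * N) * (k + 1 : ℕ)))
      * cap (α * N) (A ∩ SS d (k + 1)) = ∞) :
    ∀ᵐ ω ∂P, ¬ Bornology.IsBounded (rangeSet ξ ω ∩ A) := by
  classical
  obtain ⟨n, rfl⟩ : ∃ n, N = n + 1 := ⟨N - 1, by omega⟩
  have hαd : α < d := by
    refine lt_of_le_of_lt ?_ hdim
    push_cast
    nlinarith [(Nat.cast_nonneg n : (0 : ℝ) ≤ n)]
  have hd : d ≠ 0 := by
    rintro rfl
    simp at hαd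
    linarith
  obtain ⟨μ, hμ, hlaw, c, C, hc, hC, hg⟩ := hW.data (Nat.succ_pos n) hd hαd
  have hpow : ENNReal.ofReal (2 ^ α) ^ (n + 1) = ENNReal.ofReal (2 ^ (α * (n + 1 : ℕ))) :=
    ofReal_rpow_pow (n + 1)
  have hlt : ENNReal.ofReal (2 ^ α) ^ (n + 1) < DD d := by
    rw [hpow]; exact ofReal_lt_DD hdim
  obtain ⟨c1, C1, hc1, hC1, hcap⟩ := cap_bounds hd hdim
  set σ : ℝ≥0∞ := ENNReal.ofReal (2 ^ (α * (n + 1 : ℕ))) with hσ
  have hσ0 : σ ≠ 0 := (ENNReal.ofReal_pos.2 (by positivity)).ne'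
  have hσd : σ < DD d := ofReal_lt_DD hdim
  have hq0 : σ / DD d ≠ 0 := (ENNReal.div_pos hσ0 DD_ne_top).ne'
  have hqt : σ / DD d ≠ ∞ := ((div_DD_lt_one hσd).trans_le le_top).ne
  have hw : ∀ k : ℕ, ENNReal.ofReal (2 ^ (-((d : ℝ) - α * (n + 1 : ℕ)) * (k + 1 : ℕ)))
      = (σ / DD d) ^ (k + 1) := fun k => (rpow_div_DD _ _).symm
  have hfin : ∀ k, (A ∩ SS d (k + 1)).Finite := fun k => SS_finite k Set.inter_subset_right
  choose e he using fun k => exists_isEq hσd (hfin k).toFinset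
  set ν : ℕ → (Fin d → ℤ) → ℝ≥0∞ := fun k y => (σ / DD d) ^ (k + 1) * e k y with hν
  have hmem : ∀ k y, ν k y ≠ 0 → y ∈ A ∩ SS d (k + 1) := by
    intro k y hy
    by_contra hcon
    apply hy
    simp only [hν]
    rw [(he k).supp y fun h => hcon ((hfin k).mem_toFinset.1 h), mul_zero]
  have hpot : ∀ k z, op (kap (ENNReal.ofReal (2 ^ α) ^ (n + 1))) (ν k) z
      ≤ (σ / DD d)⁻¹ * (ENNReal.ofReal (2 ^ α) ^ (n + 1) / DD d) ^ (k + 1) := by
    intro k z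
    rw [hpow]
    simp only [hν]
    rw [op_mul_left, mul_comm]
    exact mul_le_mul' ((he k).le hσ0 hσd z) le_rfl
  have hmt : ∀ k, ∑' y, ν k y ≠ ∞ := by
    intro k
    rw [tsum_eq_sum (s := (hfin k).toFinset)]
    · refine ENNReal.sum_ne_top.2 fun y _ => ?_
      exact ENNReal.mul_ne_top (ENNReal.pow_ne_top hqt) ((he k).fin y)
    · intro y hy
      simp only [hν]
      rw [(he k).supp y hy, mul_zero]
  have hinf : ∑' k, ∑' y, ν k y = ∞ := by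
    by_contra hne
    have h1 : ∑' k : ℕ, ENNReal.ofReal (2 ^ (-((d : ℝ) - α * (n + 1 : ℕ)) * (k + 1 : ℕ)))
        * cap (α * (n + 1 : ℕ)) (A ∩ SS d (k + 1)) ≤ c1 * ∑' k, ∑' y, ν k y := by
      rw [← ENNReal.tsum_mul_left]
      refine ENNReal.tsum_le_tsum fun k => ?_
      have h2 := (hcap _ _ (he k)).1
      rw [(hfin k).coe_toFinset] at h2
      rw [hw]
      simp only [hν]
      rw [ENNReal.tsum_mul_left]
      calc (σ / DD d) ^ (k + 1) * cap (α * (n + 1 : ℕ)) (A ∩ SS d (k + 1))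
          ≤ (σ / DD d) ^ (k + 1) * (c1 * ∑' y, e k y) := by gcongr
        _ = _ := by ring
    have h3 := ne_top_of_le_ne_top (ENNReal.mul_ne_top hc1 hne) h1
    exact h3 hA
  obtain ⟨δ, hδ, hcore⟩ := core2 hμ (one_lt_ofReal hα) hc hC hg n hlt
    (ENNReal.inv_ne_top.2 hq0) ν (fun k y hy => (hmem k y hy).2) hpot hmt hinf
  have hone : ∀ K : ℕ, P {ω | (rangeSet ξ ω ∩ {y | ∃ k, K ≤ k ∧ ν k y ≠ 0}).Nonempty} = 1 := by
    intro K
    have h1 := prob_eq_one hμ (n + 1) {y | ∃ k, K ≤ k ∧ ν k y ≠ 0} δ hδ (hcore K) 0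
    rw [hit_prob_eq, ← h1]
    refine iSup_congr fun L => ?_
    exact Ev_prob hW.measurable hW.indep μ hlaw L L le_rfl _
  have hall : ∀ᵐ ω ∂P, ∀ K : ℕ,
      (rangeSet ξ ω ∩ {y | ∃ k, K ≤ k ∧ ν k y ≠ 0}).Nonempty := by
    rw [ae_all_iff]
    intro K
    have hmeas : MeasurableSet
        {ω | (rangeSet ξ ω ∩ {y | ∃ k, K ≤ k ∧ ν k y ≠ 0}).Nonempty} := by
      rw [← iUnion_Ev]
      exact MeasurableSet.iUnion fun L => Ev_measurable hW.measurable L _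
    exact (prob_compl_eq_zero_iff hmeas).2 (hone K)
  filter_upwards [hall] with ω hω hb
  obtain ⟨K, hK⟩ := sz_bounded hb
  obtain ⟨y, hy1, k, hk, hy2⟩ := hω K
  have hyA := hmem k y hy2
  have h1 := hK y ⟨hy1, hyA.1⟩
  have h2 := (SS_sz hyA.2).1
  omega

end Pool.Agent.Y202.ARW
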